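import Pool.Agent.H70.Usr

namespace Pool.Agent.Results.MP_5a9afa_al.Example

/-- `a` has unit stable range one: whenever `R a + R b = R`, some unit `u` makes `a + u b` a unit. -/
def Usr1 {R : Type} [Ring R] (a : R) : Prop :=
  ∀ b : R, (∃ r s : R, r * a + s * b = 1) → ∃ u : R, IsUnit u ∧ IsUnit (a + u * b)

open Pool.Agent.H70.Usr in
theorem result : ∃ (R : Type) (_ : CommRing R) (a : R), Usr1 a ∧ ¬ Usr1 (a * a) ∧
    ¬ ∀ x : R, ∃ u : R, IsUnit u ∧ IsUnit ((u + x) * (a * a) - 1) := by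
  obtain ⟨R, h1, h2⟩ := tower
  have hU : ∀ y : R, IsUnit y ↔ U R y := fun y => ⟨fun h => by
    obtain ⟨w, hw⟩ := h.exists_right_inv
    have e : (y : ℂ) * w = 1 := congrArg Subtype.val hw
    exact ⟨y.2, eq_inv_of_mul_eq_one_right e ▸ w.2, left_ne_zero_of_mul_eq_one e⟩,
    fun h => .of_mul_eq_one ⟨_, h.2.1⟩ (Subtype.ext (mul_inv_cancel₀ h.2.2))⟩
  have h3 : ¬ ∃ u : R, IsUnit u ∧ IsUnit (u * (2 * 2) - 1) := fun ⟨u, k1, k2⟩ =>
    h2 ⟨u, _, (hU _).1 k1, (hU _).1 k2, by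
      change 1 + ((u : ℂ) * (2 * 2) - 1) = _
      ring⟩
  refine ⟨R, inferInstance, 2, fun b ⟨r, s, e⟩ => ?_, fun h => ?_, fun h => h3 ?_⟩
  · obtain ⟨u, k1, k2⟩ := h1 b b.2 r r.2 s s.2 (congrArg Subtype.val e)
    exact ⟨⟨u, k1.1⟩, (hU _).2 k1, (hU _).2 k2⟩
  · obtain ⟨u, k1, k2⟩ := h (-1) ⟨0, -1, by simp⟩
    obtain ⟨w, hw⟩ := k1.exists_right_inv
    refine h3 ⟨w, .of_mul_eq_one_right u hw, ?_⟩
    convert (IsUnit.of_mul_eq_one_right u hw).mul k2 using 1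
    linear_combination hw
  · simpa using h 0

end Pool.Agent.Results.MP_5a9afa_al.Example
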